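import Mathlib
import Pool.Agent.Lib.MP_4aa2a9_ag.DQ.OffFinalA
import Pool.Agent.Lib.MP_4aa2a9_ag.DQ.OffNonvac

/-!
# MP_4aa2a9_ag, Q1: coherence of the direct image of a `d`-reflexive DQ-module

`X` is a complex manifold of dimension `n`, `A` a DQ-algebroid on `X`, `Y` a closed analytic subset
of codimension `≥ d + 3`, `D` its complement and `M` a coherent `d`-reflexive `A`-module on `D`.
The direct image of `M` to `X` exists, and every direct image `P` of `M` is coherent.

The sheaves `Ext^j` and the biduality morphism are taken on stalks, with resolutions by finite free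
modules; `OffNonvac.lean` proves that the stalks of a DQ-algebroid are noetherian on both sides and
that all these resolutions exist.
-/

open TopologicalSpace

open scoped Manifold ContDiff

universe u

namespace Pool.Agent.Results.MP_4aa2a9_ag.ReflexiveExtension

open Pool.Agent.DQOff

theorem result (n d : ℕ) (X : Type u) [TopologicalSpace X] [ChartedSpace (Fin n → ℂ) X]
    [IsManifold 𝓘(ℂ, Fin n → ℂ) ω X] (A : Algebroid X) (hA : IsDQ n A) (Y : Set X)
    (hY : IsAnalytic n Y) (hcodim : HasCodimGE n Y (d + 3)) (D : Opens X) (hD : (D : Set X) = Yᶜ)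
    (M : Mod A D) (hM : M.Coherent) (hrefl : M.Reflexive d) :
    (∃ (P : Mod A ⊤) (r : ∀ i V, (P.sh i).sec V → (M.sh i).sec (V ⊓ D)), IsPush M P r) ∧
    ∀ (P : Mod A ⊤) (r : ∀ i V, (P.sh i).sec V → (M.sh i).sec (V ⊓ D)),
      IsPush M P r → P.Coherent :=
  statementA n d X A hA Y hY hcodim D hD M hM hrefl

end Pool.Agent.Results.MP_4aa2a9_ag.ReflexiveExtension
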